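import Mathlib

set_option autoImplicit false

namespace Pool.Agent.Results.MP_b20271_lc.ProductNotTunable

/-- `B` refines `A`: every member of `A` is a union of members of `B`. -/
def Refines {W : Type} (B A : Set (Set W)) : Prop := ∀ U ∈ A, ∃ S ⊆ B, U = ⋃₀ S

/-- The partition `A` is tuned in the frame `(W, R)`. -/
def Tuned {W : Type} (R : W → W → Prop) (A : Set (Set W)) : Prop :=
  ∀ U ∈ A, ∀ V ∈ A, (∃ u ∈ U, ∃ v ∈ V, R u v) → ∀ u ∈ U, ∃ v ∈ V, R u v

/-- Every finite partition has a finite tuned refinement. -/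
def Tunable {W : Type} (R : W → W → Prop) : Prop :=
  ∀ A : Set (Set W), Setoid.IsPartition A → A.Finite →
    ∃ B : Set (Set W), Setoid.IsPartition B ∧ B.Finite ∧ Refines B A ∧ Tuned R B

/-- The direct product of two frames. -/
def ProdRel {W₁ W₂ : Type} (R₁ : W₁ → W₁ → Prop) (R₂ : W₂ → W₂ → Prop) :
    W₁ × W₂ → W₁ × W₂ → Prop := fun x y => R₁ x.1 y.1 ∧ R₂ x.2 y.2

theorem refines_refl {W : Type} (A : Set (Set W)) : Refines A A :=
  fun U hU => ⟨{U}, by simpa using hU, by simp⟩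

theorem tunable_eq : Tunable (fun x y : ℕ => x = y) := by
  intro A hA hfin
  refine ⟨A, hA, hfin, refines_refl A, ?_⟩
  rintro U hU V hV ⟨u, hu, v, hv, rfl⟩ w hw
  obtain rfl : U = V := (hA.2 u).unique ⟨hU, hu⟩ ⟨hV, hv⟩
  exact ⟨w, hw, rfl⟩

theorem tunable_of_map {W T : Type} (R : W → W → Prop) (A : Set (Set W))
    (hA : Setoid.IsPartition A) (f : W → T) (hf : (Set.range f).Finite)
    (h1 : ∀ x y, f x = f y → ∀ U ∈ A, x ∈ U → y ∈ U)
    (h2 : ∀ x x' y, f x = f x' → R x y → ∃ y', R x' y' ∧ f y' = f y) :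
    ∃ B : Set (Set W), Setoid.IsPartition B ∧ B.Finite ∧ Refines B A ∧ Tuned R B := by
  refine ⟨(Setoid.ker f).classes, Setoid.isPartition_classes _, ?_, ?_, ?_⟩
  · refine (hf.image (fun t => {x | f x = t})).subset ?_
    rintro _ ⟨y, rfl⟩
    exact ⟨f y, ⟨y, rfl⟩, rfl⟩
  · intro U hU
    refine ⟨{S | ∃ y ∈ U, S = {x | (Setoid.ker f) x y}}, ?_, ?_⟩
    · rintro _ ⟨y, -, rfl⟩
      exact ⟨y, rfl⟩
    · ext x
      constructor
      · exact fun hx => ⟨_, ⟨x, hx, rfl⟩, rfl⟩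
      · rintro ⟨_, ⟨y, hy, rfl⟩, hx⟩
        exact h1 y x (Eq.symm hx) U hU hy
  · rintro _ ⟨a, rfl⟩ _ ⟨b, rfl⟩ ⟨u, hu, v, hv, huv⟩ w hw
    obtain ⟨y', h3, h4⟩ := h2 u w v (Eq.trans hu (Eq.symm hw)) huv
    exact ⟨y', Eq.trans h4 hv, h3⟩

theorem tunable_le : Tunable (fun x y : ℕ => x ≤ y) := by
  classical
  intro A hA hfin
  choose c hc using fun x => (hA.2 x).exists
  have hb : ∀ U : A, ∃ N, U.1.Finite → ∀ x ∈ U.1, x < N := by
    intro U
    by_cases h : U.1.Finite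
    · obtain ⟨N, hN⟩ := h.bddAbove
      exact ⟨N + 1, fun _ x hx => Nat.lt_succ_of_le (hN hx)⟩
    · exact ⟨0, fun h' => absurd h' h⟩
  choose b hb using hb
  have := hfin.to_subtype
  obtain ⟨N, hN⟩ := Finite.exists_le b
  refine tunable_of_map _ A hA (fun x => (min x N, c x)) ?_ ?_ ?_
  · refine ((Set.finite_Iic N).prod hfin).subset ?_
    rintro _ ⟨x, rfl⟩
    exact ⟨Set.mem_Iic.mpr (min_le_right x N), (hc x).1⟩
  · intro x y h U hU hx
    have e : c x = c y := congrArg Prod.snd h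
    obtain rfl : U = c x := (hA.2 x).unique ⟨hU, hx⟩ (hc x)
    rw [e]
    exact (hc y).2
  · intro x x' y h hxy
    have e : min x N = min x' N := congrArg Prod.fst h
    by_cases hx : x < N
    · obtain rfl : x = x' := by omega
      exact ⟨y, hxy, rfl⟩
    · have hinf : (c y).Infinite := by
        intro hf
        have := hb ⟨c y, (hc y).1⟩ hf y (hc y).2
        have := hN ⟨c y, (hc y).1⟩
        omega
      obtain ⟨y', h1, h2⟩ := hinf.exists_gt (max x' N)
      have h3 := le_max_left x' N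
      have h4 := le_max_right x' N
      refine ⟨y', by omega, Prod.ext (by simp only; omega) ?_⟩
      exact (hA.2 y').unique (hc y') ⟨(hc y).1, h1⟩

def PP : Set (ℕ × ℕ) := {z | z.1 ≤ z.2 ∧ (z.2 - z.1) % 2 = 0}

theorem not_tunable :
    ¬ Tunable (ProdRel (fun x y : ℕ => x ≤ y) (fun x y : ℕ => x = y)) := by
  intro h
  have hP : Setoid.IsPartition ({PP, PPᶜ} : Set (Set (ℕ × ℕ))) := by
    refine ⟨?_, fun a => ?_⟩
    · rintro (h | h)
      · have : ((0, 0) : ℕ × ℕ) ∈ PP := by simp [PP]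
        rw [← h] at this
        exact this
      · have : ((1, 0) : ℕ × ℕ) ∈ PPᶜ := by simp [PP]
        rw [← h] at this
        exact this
    · by_cases ha : a ∈ PP
      · refine ⟨PP, ⟨Or.inl rfl, ha⟩, ?_⟩
        rintro _ ⟨rfl | rfl, h⟩
        · rfl
        · exact absurd ha h
      · refine ⟨PPᶜ, ⟨Or.inr rfl, ha⟩, ?_⟩
        rintro _ ⟨rfl | rfl, h⟩
        · exact absurd h ha
        · rfl
  obtain ⟨B, hB, hfin, href, htun⟩ := h _ hP (Set.toFinite _)
  choose c hc using fun x => (hB.2 x).exists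
  have col : ∀ z z', c z = c z' → z ∈ PP → z' ∈ PP := by
    intro z z' e hz
    obtain ⟨S, hS, hU⟩ := href PP (Or.inl rfl)
    rw [hU] at hz ⊢
    obtain ⟨U, h1, h2⟩ := hz
    obtain rfl : U = c z := (hB.2 z).unique ⟨hS h1, h2⟩ (hc z)
    exact ⟨_, h1, e ▸ (hc z').2⟩
  have forth : ∀ z z' y, c z = c z' → z.1 ≤ y → ∃ y', z'.1 ≤ y' ∧ c (y', z'.2) = c (y, z.2) := by
    intro z z' y e hy
    obtain ⟨v, hv, h1, h2⟩ := htun _ (hc z).1 _ (hc (y, z.2)).1
      ⟨z, (hc z).2, (y, z.2), (hc _).2, hy, rfl⟩ z' (e ▸ (hc z').2)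
    refine ⟨v.1, h1, ?_⟩
    rw [h2]
    exact (hB.2 v).unique (hc v) ⟨(hc _).1, hv⟩
  have key : ∀ (d : ℕ) (x n x' n' : ℕ), x + d ≤ n + 1 → c (x, n) = c (x', n') →
      x' + d ≤ n' + 1 ∨ d = 0 := by
    intro d
    induction d with
    | zero => exact fun _ _ _ _ _ _ => Or.inr rfl
    | succ d ih =>
      intro x n x' n' h e
      left
      obtain ⟨y', h1, h2⟩ := forth (x, n) (x', n') (x + 1) e (Nat.le_succ _)
      have a1 := col _ _ e
      have a2 := col _ _ e.symm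
      have a3 := col _ _ h2
      have a4 := col _ _ h2.symm
      simp only [PP, Set.mem_ofPred_eq] at a1 a2 a3 a4 h1
      rcases ih (x + 1) n y' n' (by omega) h2.symm with h3 | h3
      · by_cases c1 : y' = x'
        · subst c1
          omega
        · omega
      · omega
  have := hfin.to_subtype
  obtain ⟨n, n', hne, e⟩ := Finite.exists_ne_map_eq_of_infinite
    (fun n : ℕ => (⟨c (0, 2 * n), (hc _).1⟩ : B))
  have e' : c (0, 2 * n) = c (0, 2 * n') := congrArg Subtype.val e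
  have k1 := key (2 * n + 1) 0 _ 0 _ (by omega) e'
  have k2 := key (2 * n' + 1) 0 _ 0 _ (by omega) e'.symm
  omega

/-- The product of two tunable frames need not be tunable. -/
theorem result : ∃ (W₁ W₂ : Type) (R₁ : W₁ → W₁ → Prop) (R₂ : W₂ → W₂ → Prop),
    Tunable R₁ ∧ Tunable R₂ ∧ ¬ Tunable (ProdRel R₁ R₂) :=
  ⟨ℕ, ℕ, _, _, tunable_le, tunable_eq, not_tunable⟩

end Pool.Agent.Results.MP_b20271_lc.ProductNotTunable
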